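import Mathlib
import Pool.Agent.R579.DrazinDefs

/-!
# Completions of triangular operator matrices: the second weakening is valid

`H`, `K` are complex Hilbert spaces, `A` is a bounded operator on `H` with finite ascent, `B` is a
right Drazin invertible operator on `K`, `p ≥ max {1, asc A, dsc B}`, and condition (E) holds: the
space `S = R(A) + N(A ^ p)` is closed and its orthogonal complement has the dimension of
`T`, the closure of `N(B) ∩ R(B ^ p)`. We show that the operator matrix `M_C = [[A, C], [0, B]]` is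
Drazin invertible for every admissible `C`, that is for every `C` which maps `T` isomorphically onto
the orthogonal complement of `S` and vanishes on the orthogonal complement of `T`; the ascent and
the descent of `M_C` are at most `2 p`. This answers Q2 positively. Condition (iii) is not used.

Proof. Consider the invariant subspaces `W₀ = N(A ^ p) × 0` and `W₁ = H × R(B ^ p)` of `M_C`. The
power `M_C ^ p` vanishes on `W₀` and maps everything into `W₁`. By (E) and the choice of `C` the
operator induced by `M_C` on `W₁ / W₀` is bijective. This gives `N(M_C ^ (2 p + 1)) = N(M_C ^ (2 p))`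
and `R(M_C ^ (2 p + 1)) = R(M_C ^ (2 p))`.

The definitions are those of the starting file `Pool/Agent/R579/DrazinDefs.lean`.
-/

set_option autoImplicit false

namespace Pool.Agent.Results.MP_632fda_an.Q2True

open Pool.Agent.R579.Drazin Submodule

section algebra

variable {E : Type} [NormedAddCommGroup E] [NormedSpace ℂ E]

/-- Two nilpotent layers with a bijective layer between them. -/
theorem layers (T : E →L[ℂ] E) (p : ℕ) (W0 W1 : Submodule ℂ E)
    (h0 : ∀ x ∈ W0, T x ∈ W0)
    (ha : ∀ x ∈ W0, (T ^ p) x = 0) (hb : ∀ x, (T ^ p) x ∈ W1)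
    (h1 : ∀ x ∈ W1, T x ∈ W1)
    (hc : ∀ w ∈ W1, T w ∈ W0 → w ∈ W0) (hd : ∀ w ∈ W1, ∃ w' ∈ W1, w - T w' ∈ W0) :
    kerPow T (2 * p + 1) = kerPow T (2 * p) ∧ ranPow T (2 * p + 1) = ranPow T (2 * p) := by
  have hpow1 : ∀ (k : ℕ) (x : E), x ∈ W1 → (T ^ k) x ∈ W1 := by
    intro k
    induction k with
    | zero => intro x hx; simpa using hx
    | succ k ih => intro x hx; rw [pow_succ_apply']; exact ih _ (h1 x hx)
  have hpow0 : ∀ (k : ℕ) (x : E), x ∈ W0 → (T ^ k) x ∈ W0 := by
    intro k
    induction k with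
    | zero => intro x hx; simpa using hx
    | succ k ih => intro x hx; rw [pow_succ_apply']; exact ih _ (h0 x hx)
  have hcp : ∀ (k : ℕ) (w : E), w ∈ W1 → (T ^ k) w ∈ W0 → w ∈ W0 := by
    intro k
    induction k with
    | zero => intro w _ h; simpa using h
    | succ k ih =>
      intro w hw h
      rw [pow_succ_apply'] at h
      exact hc w hw (ih _ (h1 w hw) h)
  have hdp : ∀ (k : ℕ) (w : E), w ∈ W1 → ∃ w' ∈ W1, w - (T ^ k) w' ∈ W0 := by
    intro k
    induction k with
    | zero => intro w hw; exact ⟨w, hw, by simp⟩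
    | succ k ih =>
      intro w hw
      obtain ⟨w', hw', h⟩ := ih w hw
      obtain ⟨w'', hw'', h'⟩ := hd w' hw'
      refine ⟨w'', hw'', ?_⟩
      have h2 : w - (T ^ (k + 1)) w'' = (w - (T ^ k) w') + (T ^ k) (w' - T w'') := by
        rw [pow_succ_apply', map_sub]; abel
      rw [h2]
      exact W0.add_mem h (hpow0 k _ h')
  constructor
  · apply le_antisymm _ (kerPow_mono T (by omega))
    intro x hx
    rw [mem_kerPow] at hx ⊢
    have e1 : 2 * p + 1 = (p + 1) + p := by omega
    have e2 : 2 * p = p + p := by omega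
    rw [e1, pow_add_apply] at hx
    rw [e2, pow_add_apply]
    apply ha
    apply hcp (p + 1) _ (hb x)
    rw [hx]
    exact W0.zero_mem
  · apply le_antisymm (ranPow_anti T (by omega))
    rintro y ⟨x, rfl⟩
    obtain ⟨w, hw, h⟩ := hdp (p + 1) _ (hb x)
    refine ⟨w, ?_⟩
    have e1 : 2 * p + 1 = p + (p + 1) := by omega
    have e2 : 2 * p = p + p := by omega
    show (T ^ (2 * p + 1)) w = (T ^ (2 * p)) x
    rw [e1, e2, pow_add_apply T p (p + 1) w, pow_add_apply T p p x]
    have h3 := ha _ h
    rw [map_sub, sub_eq_zero] at h3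
    exact h3.symm

end algebra

variable {H K : Type} [NormedAddCommGroup H] [InnerProductSpace ℂ H]
  [NormedAddCommGroup K] [InnerProductSpace ℂ K]

lemma MC_pow_snd (A : H →L[ℂ] H) (B : K →L[ℂ] K) (C : K →L[ℂ] H) (k : ℕ) (z : H × K) :
    ((MC A B C ^ k) z).2 = (B ^ k) z.2 := by
  induction k with
  | zero => rfl
  | succ k ih => rw [pow_succ_apply, MC_apply, ih, pow_succ_apply]

lemma MC_pow_fst (A : H →L[ℂ] H) (B : K →L[ℂ] K) (C : K →L[ℂ] H) (k : ℕ) (x : H) :
    (MC A B C ^ k) (x, 0) = ((A ^ k) x, 0) := by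
  induction k with
  | zero => rfl
  | succ k ih => rw [pow_succ_apply, ih, MC_apply, pow_succ_apply]; simp

/-- **The second weakening is valid.** If `A` has finite ascent, `B` is right Drazin invertible,
`p ≥ max {1, asc A, dsc B}` and (E) holds, then `M_C` is Drazin invertible, with ascent and descent
at most `2 p`, for every admissible `C`. -/
theorem result (H K : Type) [NormedAddCommGroup H] [InnerProductSpace ℂ H] [CompleteSpace H]
    [NormedAddCommGroup K] [InnerProductSpace ℂ K] (A : H →L[ℂ] H) (B : K →L[ℂ] K) (p : ℕ)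
    (hp : GoodP A B p) (hB : RightDrazin B) (hE : CondE A B p) (C : K →L[ℂ] H)
    (hC : Admissible A B p C) :
    (∃ a ≤ 2 * p, HasAscent (MC A B C) a) ∧ (∃ b ≤ 2 * p, HasDescent (MC A B C) b) ∧
      DrazinInvertible (MC A B C) := by
  obtain ⟨hp1, ⟨a, hap, haA⟩, b, hbp, hbB⟩ := hp
  obtain ⟨b', hb', hcl⟩ := hB
  obtain ⟨hScl, -⟩ := hE
  obtain ⟨⟨J, hJ⟩, -⟩ := hC
  have hbb : b' = b := hb'.unique hbB
  subst hbb
  have hasc : ∀ x, (A ^ (p + 1)) x = 0 → (A ^ p) x = 0 := by
    intro x hx
    have h1 : x ∈ kerPow A (p + 1) := hx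
    rw [ker_stable A haA.1 (by omega : a ≤ p + 1), ← ker_stable A haA.1 hap] at h1
    exact h1
  have hdsc : ∀ y ∈ ranPow B p, ∃ z, (B ^ (p + 1)) z = y := by
    intro y hy
    rw [ran_stable B hb'.1 hbp, ← ran_stable B hb'.1 (by omega : b' ≤ p + 1)] at hy
    exact hy
  have hTcl : spT B p = kerPow B 1 ⊓ ranPow B p := by
    unfold spT
    apply IsClosed.submodule_topologicalClosure_eq
    rw [Submodule.coe_inf]
    apply IsClosed.inter
    · exact (B ^ 1).isClosed_ker
    · rw [ran_stable B hb'.1 hbp]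
      exact hcl
  have : CompleteSpace (spS A p) := hScl.completeSpace_coe
  have key := layers (MC A B C) p
    ((kerPow A p).prod (⊥ : Submodule ℂ K)) ((⊤ : Submodule ℂ H).prod (ranPow B p))
    (by
      rintro ⟨x, y⟩ ⟨hx, hy⟩
      have hy0 : y = 0 := hy
      subst hy0
      rw [MC_apply]
      refine ⟨?_, ?_⟩
      · show (A ^ p) (A x + C 0) = 0
        rw [map_zero, add_zero, ← pow_succ_apply', pow_succ_apply]
        have : (A ^ p) x = 0 := hx
        rw [this, map_zero]
      · show B 0 = 0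
        rw [map_zero])
    (by
      rintro ⟨x, y⟩ ⟨hx, hy⟩
      have hy0 : y = 0 := hy
      subst hy0
      rw [MC_pow_fst]
      have : (A ^ p) x = 0 := hx
      rw [this]
      rfl)
    (by
      intro z
      refine ⟨trivial, ?_⟩
      rw [SetLike.mem_coe, MC_pow_snd]
      exact ⟨z.2, rfl⟩)
    (by
      rintro ⟨x, y⟩ ⟨-, hy⟩
      refine ⟨trivial, ?_⟩
      rw [MC_apply]
      obtain ⟨z, rfl⟩ := hy
      exact ⟨B z, by
        show (B ^ p) (B z) = B ((B ^ p) z)
        rw [← pow_succ_apply', pow_succ_apply]⟩)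
    (by
      rintro ⟨x, y⟩ ⟨-, hy⟩ ⟨h1, h2⟩
      rw [MC_apply] at h1 h2
      have h2' : B y = 0 := h2
      have h1' : (A ^ p) (A x + C y) = 0 := h1
      have hyT : y ∈ spT B p := by
        rw [hTcl]
        exact ⟨by show (B ^ 1) y = 0; rw [pow_one]; exact h2', hy⟩
      have hCy : C y = J ⟨y, hyT⟩ := hJ ⟨y, hyT⟩
      have hperp : C y ∈ (spS A p)ᗮ := by rw [hCy]; exact (J ⟨y, hyT⟩).2
      have hAx : A x ∈ spS A p :=
        Submodule.mem_sup_left ⟨x, by show (A ^ 1) x = A x; rw [pow_one]⟩
      have hsum : A x + C y ∈ spS A p := Submodule.mem_sup_right h1'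
      have hCS : C y ∈ spS A p := by
        have := (spS A p).sub_mem hsum hAx
        rwa [add_sub_cancel_left] at this
      have hC0 : C y = 0 := by
        have h3 : C y ∈ spS A p ⊓ (spS A p)ᗮ := ⟨hCS, hperp⟩
        rwa [Submodule.inf_orthogonal_eq_bot, Submodule.mem_bot] at h3
      have hJ0 : J ⟨y, hyT⟩ = 0 := by
        apply Subtype.ext
        rw [← hCy, hC0]
        rfl
      have hy0 : (⟨y, hyT⟩ : spT B p) = 0 := by
        have := congrArg J.symm hJ0
        simpa using this
      have hy00 : y = 0 := congrArg Subtype.val hy0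
      refine ⟨?_, hy00⟩
      show (A ^ p) x = 0
      apply hasc
      rw [pow_succ_apply', ← h1', hC0, add_zero])
    (by
      rintro ⟨x, y⟩ ⟨-, hy⟩
      obtain ⟨z, hz⟩ := hdsc y hy
      obtain ⟨s, hs, t, ht, hst⟩ :=
        (spS A p).exists_add_mem_mem_orthogonal (x - C ((B ^ p) z))
      obtain ⟨r, ⟨x', hx'⟩, n, hn, hrn⟩ := Submodule.mem_sup.1 hs
      have hx'' : A x' = r := by
        have h : (A ^ 1) x' = r := hx'
        rwa [pow_one] at h
      have hnp : (A ^ p) n = 0 := hn
      let q : spT B p := J.symm ⟨t, ht⟩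
      have hqT : (q : K) ∈ kerPow B 1 ⊓ ranPow B p := by rw [← hTcl]; exact q.2
      have hqB : B (q : K) = 0 := by
        have h : (B ^ 1) (q : K) = 0 := hqT.1
        rwa [pow_one] at h
      have hqC : C (q : K) = t := by
        rw [hJ q]
        show ((J (J.symm ⟨t, ht⟩) : ↥(spS A p)ᗮ) : H) = t
        rw [ContinuousLinearEquiv.apply_symm_apply]
      refine ⟨(x', (B ^ p) z + q), ⟨trivial, (ranPow B p).add_mem ⟨z, rfl⟩ hqT.2⟩, ?_⟩
      rw [MC_apply]
      refine ⟨?_, ?_⟩
      · show (A ^ p) (x - (A x' + C ((B ^ p) z + q))) = 0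
        have h5 : x - (A x' + C ((B ^ p) z + q)) = n := by
          rw [map_add, hqC, hx'']
          have h6 : x = s + t + C ((B ^ p) z) := by rw [← hst]; abel
          rw [h6, ← hrn]
          abel
        rw [h5, hnp]
      · show y - B ((B ^ p) z + q) = 0
        rw [map_add, hqB, add_zero, ← pow_succ_apply, hz, sub_self])
  have h1 := hasAscent_of (MC A B C) key.1
  have h2 := hasDescent_of (MC A B C) key.2
  exact ⟨h1, h2, ⟨h1.imp fun _ h => h.2, h2.imp fun _ h => h.2⟩⟩

end Pool.Agent.Results.MP_632fda_an.Q2True
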